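import Pool.Agent.PT.Main

/-!
# Two non-orthogonal `ℙ`-objects: there are no relations between the `ℙ`-twists

The definitions used in the statement (`IsPObject`, `IsPTwistAt`, `IsPTwist`, `IsCompactObj`,
`AutEq`) are in `Pool/Agent/PT/Defs.lean`.

The theorem is stated relative to a class `S` of test objects. The two standard situations are:

* (a) all the spaces `Hom^*(A,B)` are finite-dimensional, and `S` is the class of all objects;
* (b) `C` is cocomplete and `S` is the class of compact objects (so `P₁` and `P₂` are compact,
  and the Calabi-Yau property and the description of the twists are used for compact objects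
  only). In this case `Hom^*(P₁,P₂)` is not assumed to be finite-dimensional.

Neither an enhancement of `C` nor the functoriality of the cones is needed: the autoequivalences
`T₁` and `T₂` are only assumed to be given, on the objects of `S`, by the cone description of
the `ℙ`-twist.

The idea of the proof: for an object `F` one looks at the lowest and highest degrees of
`Hom^*(P₁,F)` and `Hom^*(P₂,F)`. The long exact sequences of the two cones show how these extreme
degrees change under the twists and their inverses, and after applying a non-empty reduced word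
to `P₁` or `P₂` they are never those of a shift of `P₁` (or `P₂`). The borderline cases, where
extreme degrees of different terms coincide, are controlled by finer invariants (the
multiplication between the extreme graded pieces).
-/

open CategoryTheory Limits Pretriangulated

namespace Pool.Agent.Results.MP_ee8c04_ag.FreePTwists

open Pool.Agent.PT

universe v u w

theorem result
    {K : Type w} [Field K]
    -- a `K`-linear triangulated category
    {C : Type u} [Category.{v} C] [HasZeroObject C] [Preadditive C] [Linear K C]
    [HasShift C ℤ] [∀ a : ℤ, (shiftFunctor C a).Additive]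
    [∀ a : ℤ, (shiftFunctor C a).Linear K] [Pretriangulated C]
    (n : ℕ) (hn : 0 < n) (k : ℤ)
    -- the class `S` of test objects: all objects in case (a), the compact objects in case (b)
    (S : ObjectProperty C) (hS : ∀ (F : C) (j : ℤ), S F → S (F⟦j⟧))
    -- two `ℙⁿ[k]`-objects
    (P₁ P₂ : C) (hP₁ : S P₁) (hP₂ : S P₂)
    (hab : (∀ F, S F → FiniteDimensional K (HomStar P₁ F) ∧ FiniteDimensional K (HomStar P₂ F)) ∨
      (∀ F, S F → IsCompactObj F))
    (t₁ : ShiftedHom P₁ P₁ k) (t₂ : ShiftedHom P₂ P₂ k)
    (h₁ : IsPObject K S n k P₁ t₁) (h₂ : IsPObject K S n k P₂ t₂)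
    -- which are not orthogonal, and not shifts of each other
    (hno : ∃ (j : ℤ) (f : P₁ ⟶ P₂⟦j⟧), f ≠ 0)
    (hns : ∀ j : ℤ, IsEmpty (P₁ ≅ P₂⟦j⟧))
    -- the `ℙ`-twists
    (T₁ T₂ : C ≌ C) (hT₁ : IsPTwist K S t₁ T₁) (hT₂ : IsPTwist K S t₂ T₂)
    (hST₁ : ∀ F, S F → S (T₁.functor.obj F) ∧ S (T₁.inverse.obj F))
    (hST₂ : ∀ F, S F → S (T₂.functor.obj F) ∧ S (T₂.inverse.obj F))
    -- a non-empty reduced word in `T₁, T₁⁻¹, T₂, T₂⁻¹`
    (L : List (Bool × Bool)) (hL : FreeGroup.IsReduced L) (hne : L ≠ []) :
    -- it is not isomorphic to the identity functor, nor to any shift functor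
    IsEmpty ((wordEq T₁ T₂ L).functor ≅ 𝟭 C) ∧
      ∀ l : ℤ, IsEmpty ((wordEq T₁ T₂ L).functor ≅ shiftFunctor C l) := by
  have key : ∀ l : ℤ, IsEmpty ((wordEq T₁ T₂ L).functor ≅ shiftFunctor C l) := fun l =>
    not_nonempty_iff.1 (main_words S n hn k P₁ P₂ t₁ t₂ h₁ h₂ hP₁ hP₂ hS hab T₁ T₂ hT₁ hT₂
      hST₁ hST₂ hno hns L hL hne l)
  exact ⟨⟨fun φ => (key 0).false (φ ≪≫ (shiftFunctorZero C ℤ).symm)⟩, key⟩

end Pool.Agent.Results.MP_ee8c04_ag.FreePTwists
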